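import Pool.Agent.T63.EQ.Sub
import Pool.Agent.Results.MP_1acd66_nt.AllForms

/-!
# Equidistribution of the rational points of the forms of `(ℙ¹)ⁿ // SL₂`

The setting is that of the starting result `AllForms`: `A = ∏ K_i` is an etale algebra of odd degree `n ≥ 5`, a product
of `r` number fields, `V_A` the corresponding form of the smooth Fano variety `(ℙ¹)ⁿ // SL₂` over `ℚ` (for `n = 5` all
quintic del Pezzo surfaces), and for every adelic anticanonical height `H` the number of the rational points with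
`H ≤ B` of the open subset given by distinct points is asymptotic to `c B (log B) ^ (r - 1)`, `c > 0`.

**Theorem.** For every adelic anticanonical height `H`, every finite set `S` of primes and all continuous functions
`g₀ ≥ 0` on `V_A(ℝ)` and `g_p ≥ 0` on `V_A(ℚ_p)`, `p ∈ S`, the means

  `1 / (B (log B) ^ (r - 1)) ∑ g₀(P) ∏_{p ∈ S} g_p(P)`, over the rational points `P` with `H(P) ≤ B`,

converge as `B → ∞`: the rational points of bounded height are equidistributed in `V_A(ℝ) × ∏_{p ∈ S} V_A(ℚ_p)` with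
respect to some finite measure, of positive total mass `c`.

That the asymptotic formula for all adelic heights implies the equidistribution is a principle of Peyre (for the
constants which he predicts). Here the constants are not known; the proof (`Agent/T63/EQ`) averages the number of the
points with `B < H(P) ≤ B exp (s g(P))` over `B`, and treats the places one after the other.
-/

set_option autoImplicit false

namespace Pool.Agent.Results.MP_1acd66_nt.EquidistributionAllForms

open NumberField FractionalIdeal Module Filter Topology ComplexConjugate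
open scoped nonZeroDivisors
open Pool.Agent.Results.MP_1acd66_nt.AllForms

section

variable {s : Type} [Fintype s] [DecidableEq s] {K : s → Type} [∀ i, Field (K i)]
  [∀ i, NumberField (K i)]

/-- A nonnegative continuous function on `V_A(ℝ)`: a bounded continuous function on the real stable tuples which does
not change if the vectors are multiplied by scalars (compatible with complex conjugation), or by a matrix in
`GL₂(ℝ)`. (`V_A(ℝ)` is compact, so that continuous functions are bounded.) -/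
def RealTest (g : Tuple K → ℝ) : Prop :=
  (∃ M : ℝ, ∀ v, RealStable v → 0 ≤ g v ∧ g v ≤ M) ∧
  ContinuousOn g {v | RealStable v} ∧
  (∀ v, RealStable v → ∀ a : Emb K → ℂ, (∀ e, a e ≠ 0) →
    (∀ (i : s) (σ : K i →+* ℂ), a ⟨i, ComplexEmbedding.conjugate σ⟩ = conj (a ⟨i, σ⟩)) →
    g (fun e => a e • v e) = g v) ∧
  (∀ v, RealStable v → ∀ a b c d : ℝ, a * d - b * c ≠ 0 →
    g (fun e => (a * (v e).1 + b * (v e).2, c * (v e).1 + d * (v e).2)) = g v)

/-- A nonnegative continuous function on `V_A(ℚ_p)`, given by its values at the rational points: it is bounded,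
depends only on the point, and is `p`-adically continuous, uniformly on `p`-reduced pairs. -/
def PadicTest (p : ℕ) (g : Alg K × Alg K → ℝ) : Prop :=
  (∃ M : ℝ, ∀ P, Distinct P → 0 ≤ g P ∧ g P ≤ M) ∧
  (∀ P P', Distinct P → Equivalent P P' → g P' = g P) ∧
  ∀ ε : ℝ, 0 < ε → ∃ k : ℕ, ∀ P P' : Alg K × Alg K, Distinct P → Distinct P' → Reduced p P →
    (∀ i, P'.1 i - P.1 i ∈ spanSingleton (𝓞 (K i))⁰ (p : K i) ^ k * content P i) →
    (∀ i, P'.2 i - P.2 i ∈ spanSingleton (𝓞 (K i))⁰ (p : K i) ^ k * content P i) →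
    |g P' - g P| ≤ ε

/-- The adelic anticanonical height of the point given by `P`. -/
noncomputable def height (S : Finset ℕ) (ψ : Tuple K → ℝ) (φ : ℕ → Alg K × Alg K → ℝ)
    (P : Alg K × Alg K) : ℝ :=
  ht P * (ψ (conjugates P) * ∏ p ∈ S, φ p P)

open Classical in
/-- A representative of a class of pairs. -/
noncomputable def rep (C : Set (Alg K × Alg K)) : Alg K × Alg K := if h : C.Nonempty then h.some else 0

/-- The value of the product of the test functions at the point given by the class `C`. -/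
noncomputable def value (S : Finset ℕ) (g₀ : Tuple K → ℝ) (g : ℕ → Alg K × Alg K → ℝ)
    (C : Set (Alg K × Alg K)) : ℝ :=
  g₀ (conjugates (rep C)) * ∏ p ∈ S, g p (rep C)

/-- the twist of a real factor -/
theorem real_twist {ψ g : Tuple K → ℝ} (hψ : RealFactor ψ) (hg : RealTest g) (r : ℝ) :
    RealFactor (fun v => ψ v * Real.exp (-(r * g v))) := by
  obtain ⟨⟨m, M, hm, hψb⟩, hψc, hψ1, hψ2⟩ := hψ
  obtain ⟨⟨C, hC⟩, hgc, hg1, hg2⟩ := hg
  have hsb : ∀ x, RealStable x → |r * g x| ≤ |r| * C := by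
    intro x hx
    rw [abs_mul, abs_of_nonneg (hC x hx).1]
    exact mul_le_mul_of_nonneg_left (hC x hx).2 (abs_nonneg _)
  refine ⟨⟨m * Real.exp (-(|r| * C)), M * Real.exp (|r| * C), by positivity, fun x hx => ⟨?_, ?_⟩⟩,
    hψc.mul (Real.continuous_exp.comp_continuousOn (hgc.const_smul r).neg), ?_, ?_⟩
  · have h1 := abs_le.1 (hsb x hx)
    have h2 := hψb x hx
    refine mul_le_mul h2.1 (Real.exp_le_exp.2 ?_) (Real.exp_pos _).le (hm.le.trans h2.1)
    linarith [h1.2]
  · have h1 := abs_le.1 (hsb x hx)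
    have h2 := hψb x hx
    refine mul_le_mul h2.2 (Real.exp_le_exp.2 ?_) (Real.exp_pos _).le
      ((hm.le.trans h2.1).trans h2.2)
    linarith [h1.1]
  · intro v hv a ha hc
    simp only
    rw [hψ1 v hv a ha hc, hg1 v hv a ha hc]
  · intro v hv a b c d h
    simp only
    rw [hψ2 v hv a b c d h, hg2 v hv a b c d h]

/-- the twist of a `p`-adic factor -/
theorem padic_twist {p : ℕ} {φ g : Alg K × Alg K → ℝ} (hφ : PadicFactor p φ) (hg : PadicTest p g) (r : ℝ) :
    PadicFactor p (fun P => φ P * Real.exp (-(r * g P))) := by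
  obtain ⟨⟨m, M, hm, hφb⟩, hφ1, hφ2⟩ := hφ
  obtain ⟨⟨C, hC⟩, hg1, hg2⟩ := hg
  have hsb : ∀ x, Distinct x → |r * g x| ≤ |r| * C := by
    intro x hx
    rw [abs_mul, abs_of_nonneg (hC x hx).1]
    exact mul_le_mul_of_nonneg_left (hC x hx).2 (abs_nonneg _)
  refine ⟨⟨m * Real.exp (-(|r| * C)), M * Real.exp (|r| * C), by positivity, fun x hx => ⟨?_, ?_⟩⟩,
    ?_, ?_⟩
  · have h1 := abs_le.1 (hsb x hx)
    have h2 := hφb x hx
    refine mul_le_mul h2.1 (Real.exp_le_exp.2 ?_) (Real.exp_pos _).le (hm.le.trans h2.1)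
    linarith [h1.2]
  · have h1 := abs_le.1 (hsb x hx)
    have h2 := hφb x hx
    refine mul_le_mul h2.2 (Real.exp_le_exp.2 ?_) (Real.exp_pos _).le
      ((hm.le.trans h2.1).trans h2.2)
    linarith [h1.1]
  · intro P P' hP hPP'
    simp only
    rw [hφ1 P P' hP hPP', hg1 P P' hP hPP']
  · intro ε hε
    -- uniform continuity of `(u, v) ↦ u exp (- r v)`
    have huc : UniformContinuousOn (fun q : ℝ × ℝ => q.1 * Real.exp (-(r * q.2)))
        (Set.Icc m M ×ˢ Set.Icc 0 C) := by
      refine (isCompact_Icc.prod isCompact_Icc).uniformContinuousOn_of_continuous ?_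
      exact Continuous.continuousOn (by fun_prop)
    rw [Metric.uniformContinuousOn_iff] at huc
    obtain ⟨δ, hδ, huc⟩ := huc ε hε
    obtain ⟨k₁, h1⟩ := hφ2 (δ / 2) (by positivity)
    obtain ⟨k₂, h2⟩ := hg2 (δ / 2) (by positivity)
    refine ⟨max k₁ k₂, fun P P' hP hP' hR ha hb => ?_⟩
    have hmono : ∀ (i : s) (k : ℕ), k ≤ max k₁ k₂ →
        spanSingleton (𝓞 (K i))⁰ (p : K i) ^ (max k₁ k₂) * content P i ≤
          spanSingleton (𝓞 (K i))⁰ (p : K i) ^ k * content P i := by
      intro i k hk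
      refine mul_le_mul_left ?_ _
      have hle1 : spanSingleton (𝓞 (K i))⁰ (p : K i) ≤ 1 := by
        rw [spanSingleton_le_iff_mem, mem_one_iff]
        exact ⟨(p : 𝓞 (K i)), by simp⟩
      have hpw := pow_le_one' hle1 (max k₁ k₂ - k)
      calc spanSingleton (𝓞 (K i))⁰ (p : K i) ^ (max k₁ k₂)
          = spanSingleton (𝓞 (K i))⁰ (p : K i) ^ k *
            spanSingleton (𝓞 (K i))⁰ (p : K i) ^ (max k₁ k₂ - k) := by
            rw [← pow_add, Nat.add_sub_cancel' hk]
        _ ≤ spanSingleton (𝓞 (K i))⁰ (p : K i) ^ k * 1 := mul_le_mul_right hpw _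
        _ = _ := mul_one _
    have e1 := h1 P P' hP hP' hR (fun i => hmono i k₁ (le_max_left _ _) (ha i))
      (fun i => hmono i k₁ (le_max_left _ _) (hb i))
    have e2 := h2 P P' hP hP' hR (fun i => hmono i k₂ (le_max_right _ _) (ha i))
      (fun i => hmono i k₂ (le_max_right _ _) (hb i))
    have e3 := huc (φ P', g P') ⟨hφb P' hP', hC P' hP'⟩ (φ P, g P) ⟨hφb P hP, hC P hP⟩ (by
      rw [Prod.dist_eq, Real.dist_eq, Real.dist_eq]
      refine max_lt ?_ ?_
      · simp only
        linarith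
      · simp only
        linarith)
    rw [Real.dist_eq] at e3
    exact e3.le

end

/-- the value of the test functions at the places -/
noncomputable def gv {s : Type} [Fintype s] [DecidableEq s] {K : s → Type} [∀ i, Field (K i)]
    [∀ i, NumberField (K i)] (g₀ : Tuple K → ℝ) (g : ℕ → Alg K × Alg K → ℝ) (i : Option ℕ)
    (C : Set (Alg K × Alg K)) : ℝ :=
  match i with
  | none => g₀ (conjugates (rep C))
  | some p => g p (rep C)

/-- **Equidistribution of the rational points.** -/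
theorem result {s : Type} [Fintype s] [DecidableEq s] (K : s → Type) [∀ i, Field (K i)]
    [∀ i, NumberField (K i)] (hodd : Odd (deg K)) (hn : 5 ≤ deg K) (S : Finset ℕ)
    (hS : ∀ p ∈ S, p.Prime) (ψ : Tuple K → ℝ) (hψ : RealFactor ψ) (φ : ℕ → Alg K × Alg K → ℝ)
    (hφ : ∀ p ∈ S, PadicFactor p (φ p)) (g₀ : Tuple K → ℝ) (hg₀ : RealTest g₀)
    (g : ℕ → Alg K × Alg K → ℝ) (hg : ∀ p ∈ S, PadicTest p (g p)) :
    ∃ μ : ℝ, Tendsto (fun B : ℝ => (∑ᶠ C ∈ {C : Set (Alg K × Alg K) | ∃ P, Distinct P ∧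
      C = {P' | Equivalent P P'} ∧ height S ψ φ P ≤ B}, value S g₀ g C) /
        (B * Real.log B ^ (Fintype.card s - 1))) atTop (𝓝 μ) := by
  classical
  have hDIV := Pool.Agent.Y421.KE.div K
  have hCLS := Pool.Agent.Y421.KE.cls K
  have hHB := Pool.Agent.Y681.KE.hb hCLS Pool.Agent.Y259.KE.idx
  have hDESC : Pool.Agent.Y714.KE.S_DESC K := Pool.Agent.Y681.KE.desc hHB Pool.Agent.Y195.KE.nbr
  have hHT := Pool.Agent.Y977.KE.ht K hDESC Pool.Agent.Y195.KE.uni
  have hn2 : 2 ≤ Pool.Agent.Y714.KE.dg K := le_trans (by norm_num) hn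
  have hn3 : 3 ≤ Pool.Agent.Y714.KE.dg K := le_trans (by norm_num) hn
  obtain ⟨hHT1, hHT2⟩ := hHT hodd hn3
  have hinv : ∀ P P' : Alg K × Alg K, Distinct P → Equivalent P P' → Distinct P' ∧ ht P' = ht P := by
    intro P P' hP hE
    rw [ht_eq, ht_eq]
    exact hHT2 P P' hP hE
  have hpos : ∀ P : Alg K × Alg K, Distinct P → 0 < ht P := by
    intro P hP
    obtain ⟨Q, hQ, ⟨a, b, c, d, hd, he⟩, -⟩ := hDESC hodd hn3 P hP
    have hE : Pool.Agent.Y714.KE.Eq2 P Q := by
      rw [he]
      exact Pool.Agent.Y977.KE.E.gl _ hd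
    obtain ⟨hNQ, h1⟩ := hHT2 P Q hP hE
    rw [ht_eq, ← h1, hHT1 Q hNQ hQ]
    unfold Pool.Agent.Y714.KE.hp
    have g1 : (0 : ℝ) < ((Pool.Agent.Y714.KE.nA (Pool.Agent.Y714.KE.cn Q) : ℚ) : ℝ) := by
      exact_mod_cast Pool.Agent.Y714.KE.nA_pos (Pool.Agent.Y714.KE.cn_ne fun i => hNQ.ne hn2 i)
    have g2 := hNQ.pm_pos hn2
    positivity
  have hRS : ∀ P : Alg K × Alg K, Distinct P → RealStable (conjugates P) := by
    intro P hP
    rw [realStable_iff]
    exact ⟨Pool.Agent.Y714.KE.SYM_vc _, Pool.Agent.Y714.KE.ND.pm_pos hP hn2⟩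
  -- the height does not depend on the representative
  have hheight : ∀ (ψ : Tuple K → ℝ) (φ : ℕ → Alg K × Alg K → ℝ), RealFactor ψ →
      (∀ p ∈ S, PadicFactor p (φ p)) → ∀ P P' : Alg K × Alg K, Distinct P → Equivalent P P' →
      height S ψ φ P' = height S ψ φ P := by
    intro ψ φ hψ hφ P P' hP hE
    unfold height
    rw [(hinv P P' hP hE).2]
    congr 1
    exact Pool.Agent.Y714.KE.fac_eq2 hn2 ((realFactor_iff ψ).1 hψ) (fun p hp => hφ p hp) hP hE
  set A : Set (Set (Alg K × Alg K)) := {C | ∃ P, Distinct P ∧ C = {P' | Equivalent P P'}} with hA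
  have hrep : ∀ (P : Alg K × Alg K), Distinct P → Equivalent P (rep {P' | Equivalent P P'}) := by
    intro P hP
    have hne : ({P' | Equivalent P P'} : Set (Alg K × Alg K)).Nonempty :=
      ⟨P, Pool.Agent.Y977.KE.E.refl P⟩
    unfold rep
    rw [dif_pos hne]
    exact hne.some_mem
  have hrepA : ∀ C ∈ A, Distinct (rep C) := by
    rintro C ⟨P, hP, rfl⟩
    exact (hinv P _ hP (hrep P hP)).1
  have hset : ∀ (ψ : Tuple K → ℝ) (φ : ℕ → Alg K × Alg K → ℝ), RealFactor ψ →
      (∀ p ∈ S, PadicFactor p (φ p)) → ∀ B : ℝ,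
      {C : Set (Alg K × Alg K) | ∃ P, Distinct P ∧ C = {P' | Equivalent P P'} ∧ height S ψ φ P ≤ B} =
        {C | C ∈ A ∧ height S ψ φ (rep C) ≤ B} := by
    intro ψ φ hψ hφ B
    ext C
    constructor
    · rintro ⟨P, hP, rfl, hB⟩
      refine ⟨⟨P, hP, rfl⟩, ?_⟩
      rw [hheight ψ φ hψ hφ P _ hP (hrep P hP)]
      exact hB
    · rintro ⟨⟨P, hP, rfl⟩, hB⟩
      refine ⟨P, hP, rfl, ?_⟩
      rw [hheight ψ φ hψ hφ P _ hP (hrep P hP)] at hB
      exact hB
  have hval : ∀ C, value S g₀ g C = ∏ i ∈ Finset.insertNone S, gv g₀ g i C := by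
    intro C
    rw [Finset.prod_insertNone]
    rfl
  simp only [hset ψ φ hψ hφ, hval]
  refine Pool.Agent.T63.EQ.equi A (Fintype.card s - 1) (Finset.insertNone S)
    (fun C => height S ψ φ (rep C)) (fun C hC => ?_) (gv g₀ g) (fun i hi C hC => ?_) (fun i hi => ?_)
    (fun r => ?_)
  · have h1 := hrepA C hC
    unfold height
    obtain ⟨⟨m, M, hm, hb⟩, -⟩ := hψ
    refine mul_pos (hpos _ h1) (mul_pos (lt_of_lt_of_le hm (hb _ (hRS _ h1)).1)
      (Finset.prod_pos fun p hp => ?_))
    obtain ⟨⟨m', M', hm', hb'⟩, -⟩ := hφ p hp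
    exact lt_of_lt_of_le hm' (hb' _ h1).1
  · have h1 := hrepA C hC
    rcases i with _ | p
    · obtain ⟨⟨M, hM⟩, -⟩ := hg₀
      exact (hM _ (hRS _ h1)).1
    · have hp : p ∈ S := by simpa using hi
      obtain ⟨⟨M, hM⟩, -⟩ := hg p hp
      exact (hM _ h1).1
  · rcases i with _ | p
    · obtain ⟨⟨M, hM⟩, -⟩ := hg₀
      exact ⟨M, fun C hC => (hM _ (hRS _ (hrepA C hC))).2⟩
    · have hp : p ∈ S := by simpa using hi
      obtain ⟨⟨M, hM⟩, -⟩ := hg p hp
      exact ⟨M, fun C hC => (hM _ (hrepA C hC)).2⟩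
  · have hψ' := real_twist hψ hg₀ (r none)
    have hφ' : ∀ p ∈ S, PadicFactor p (fun P => φ p P * Real.exp (-(r (some p) * g p P))) :=
      fun p hp => padic_twist (hφ p hp) (hg p hp) _
    obtain ⟨c, hc, hlim⟩ := Pool.Agent.Results.MP_1acd66_nt.AllForms.result K hodd hn S hS _ hψ'
      (fun p P => φ p P * Real.exp (-(r (some p) * g p P))) hφ'
    refine ⟨c, hc, hlim.congr fun B => ?_⟩
    have e2 := hset _ (fun p P => φ p P * Real.exp (-(r (some p) * g p P))) hψ' hφ' B
    unfold height at e2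
    rw [e2]
    congr 3
    ext C
    simp only [Set.mem_setOf_eq]
    refine and_congr_right fun _ => ?_
    have e1 : ht (rep C) * (ψ (conjugates (rep C)) * Real.exp (-(r none * g₀ (conjugates (rep C)))) *
        ∏ p ∈ S, φ p (rep C) * Real.exp (-(r (some p) * g p (rep C)))) =
        height S ψ φ (rep C) * Real.exp (-∑ i ∈ Finset.insertNone S, r i * gv g₀ g i C) := by
      unfold height
      rw [Finset.prod_mul_distrib, ← Real.exp_sum, Finset.sum_insertNone, neg_add, Real.exp_add,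
        ← Finset.sum_neg_distrib]
      simp only [gv]
      ring
    rw [e1]

end Pool.Agent.Results.MP_1acd66_nt.EquidistributionAllForms
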