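import Pool.Agent.T63.EQ.Sub
import Pool.Agent.Results.MP_1acd66_nt.CompleteIntersectionsAllHeights

/-!
# Equidistribution of the rational points of smooth complete intersections of bidegree `(1,1)`

The setting is that of the starting result `CompleteIntersectionsAllHeights`: `X` is a smooth complete intersection of
`k` divisors of type `(1,1)` in the product of two projective spaces of dimensions `n - 1, m - 1 ≥ 2 k`, `U` an
explicit open subset, and for every adelic anticanonical height `H` the number of the points of `U(ℚ)` with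
`H(P) ≤ B` is asymptotic to `c B log B`, `c > 0`.

**Theorem.** For every adelic anticanonical height `H`, every finite set `S` of primes and all continuous functions
`g₀ ≥ 0` on `X(ℝ)` and `g_p ≥ 0` on `X(ℚ_p)`, `p ∈ S`, the means

  `1 / (B log B) ∑ g₀(P) ∏_{p ∈ S} g_p(P)`, over the `P ∈ U(ℚ)` with `H(P) ≤ B`,

converge as `B → ∞`: the rational points of bounded height are equidistributed in `X(ℝ) × ∏_{p ∈ S} X(ℚ_p)` with
respect to some finite measure, of positive total mass `c`; in particular (characteristic functions of open and closed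
sets) the number of the points with given residues modulo a fixed integer divided by `B log B` converges.

That the asymptotic formula for all adelic heights implies the equidistribution is a principle of Peyre (for the
constants which he predicts). Here the constants are not known; the proof (`Agent/T63/EQ`) averages the number of the
points with `B < H(P) ≤ B exp (s g(P))` over `B`, and treats the places one after the other.
-/

set_option autoImplicit false

namespace Pool.Agent.Results.MP_1acd66_nt.EquidistributionBilinear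

open Matrix Filter Topology
open Pool.Agent.Results.MP_1acd66_nt.CompleteIntersectionsAllHeights

variable {k n m : ℕ}

/-- Nonnegative continuous functions on `X(K)`, written as functions of the coordinate vectors: they do not change if
the vectors are multiplied by nonzero scalars. -/
structure TestFunction {K : Type*} [NormedField K] (M : Fin k → Matrix (Fin n) (Fin m) ℤ)
    (g : (Fin n → K) → (Fin m → K) → ℝ) : Prop where
  continuous : ContinuousOn (fun p : (Fin n → K) × (Fin m → K) => g p.1 p.2)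
    {p | p.1 ≠ 0 ∧ p.2 ≠ 0 ∧ OnX M p.1 p.2}
  nonneg : ∀ x y, x ≠ 0 → y ≠ 0 → OnX M x y → 0 ≤ g x y
  invariant : ∀ x y, x ≠ 0 → y ≠ 0 → OnX M x y → ∀ s t : K, s ≠ 0 → t ≠ 0 →
    g (s • x) (t • y) = g x y

/-- The rational points of `U`. -/
def points (M : Fin k → Matrix (Fin n) (Fin m) ℤ) :
    Set (Projectivization ℚ (Fin n → ℚ) × Projectivization ℚ (Fin m → ℚ)) :=
  {P | OnX M P.1.rep P.2.rep ∧ InU M P.1.rep P.2.rep}

/-- The value of the product of the test functions at a rational point. -/
noncomputable def value (S : Finset Nat.Primes) (g₀ : (Fin n → ℝ) → (Fin m → ℝ) → ℝ)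
    (g : ∀ p : Nat.Primes, (Fin n → ℚ_[p]) → (Fin m → ℚ_[p]) → ℝ)
    (P : Projectivization ℚ (Fin n → ℚ) × Projectivization ℚ (Fin m → ℚ)) : ℝ :=
  g₀ (ext ℝ P.1.rep) (ext ℝ P.2.rep) * ∏ p ∈ S, g p (ext ℚ_[p] P.1.rep) (ext ℚ_[p] P.2.rep)

theorem ext_ne {K : Type*} [Field K] [CharZero K] {N : ℕ} {v : Fin N → ℚ} (hv : v ≠ 0) : ext K v ≠ 0 := by
  intro h
  apply hv
  funext i
  have := congrFun h i
  simpa [CompleteIntersectionsAllHeights.ext] using this

theorem onX_ext {K : Type*} [Field K] [CharZero K] {M : Fin k → Matrix (Fin n) (Fin m) ℤ} {x : Fin n → ℚ}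
    {y : Fin m → ℚ} (h : OnX M x y) : OnX M (ext K x) (ext K y) := by
  intro i
  have h1 := congrArg (fun q : ℚ => (q : K)) (h i)
  simp only [dotProduct, mulVec, Matrix.map_apply] at h1 ⊢
  push_cast at h1
  simpa [CompleteIntersectionsAllHeights.ext] using h1

theorem exists_scale {K : Type*} [NormedField K] {N : ℕ} {x : Fin N → K} (hx : x ≠ 0) :
    ∃ s : K, s ≠ 0 ∧ ‖s • x‖ = 1 := by
  obtain ⟨i₀, hi₀⟩ : ∃ i, x i ≠ 0 := by
    by_contra h
    push Not at h
    exact hx (funext h)
  have : Nonempty (Fin N) := ⟨i₀⟩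
  obtain ⟨i, -, hi⟩ := Finset.exists_max_image Finset.univ (fun i => ‖x i‖) ⟨i₀, Finset.mem_univ _⟩
  have hxi : x i ≠ 0 := by
    intro h0
    have h1 := hi i₀ (Finset.mem_univ _)
    rw [h0, norm_zero] at h1
    exact hi₀ (norm_le_zero_iff.1 h1)
  have hn : ‖x‖ = ‖x i‖ := by
    refine le_antisymm ?_ (norm_le_pi_norm x i)
    exact (pi_norm_le_iff_of_nonneg (norm_nonneg _)).2 fun j => hi j (Finset.mem_univ _)
  refine ⟨(x i)⁻¹, inv_ne_zero hxi, ?_⟩
  rw [norm_smul, norm_inv, hn, inv_mul_cancel₀ (norm_ne_zero_iff.2 hxi)]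

/-- test functions are bounded, as `X(K)` is compact -/
theorem TestFunction.bounded {K : Type*} [NormedField K] [ProperSpace K]
    {M : Fin k → Matrix (Fin n) (Fin m) ℤ} {g : (Fin n → K) → (Fin m → K) → ℝ} (hg : TestFunction M g) :
    ∃ C : ℝ, ∀ x y, x ≠ 0 → y ≠ 0 → OnX M x y → g x y ≤ C := by
  set Z : Set ((Fin n → K) × (Fin m → K)) := {p | (‖p.1‖ = 1 ∧ ‖p.2‖ = 1) ∧ OnX M p.1 p.2} with hZ
  have hcl : IsClosed Z := by
    refine IsClosed.inter (IsClosed.inter ?_ ?_) ?_
    · exact isClosed_eq (continuous_norm.comp continuous_fst) continuous_const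
    · exact isClosed_eq (continuous_norm.comp continuous_snd) continuous_const
    · have h1 : {p : (Fin n → K) × (Fin m → K) | OnX M p.1 p.2} =
          ⋂ i, {p | p.1 ⬝ᵥ ((M i).map (Int.cast : ℤ → K) *ᵥ p.2) = 0} := by
        ext p
        simp [OnX]
      have h2 : IsClosed {p : (Fin n → K) × (Fin m → K) | OnX M p.1 p.2} := by
        rw [h1]
        refine isClosed_iInter fun i => isClosed_eq ?_ continuous_const
        exact Continuous.dotProduct continuous_fst (Continuous.matrix_mulVec continuous_const continuous_snd)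
      exact h2
  have hco : IsCompact Z := by
    refine Metric.isCompact_of_isClosed_isBounded hcl ?_
    refine (Metric.isBounded_closedBall (x := (0 : (Fin n → K) × (Fin m → K))) (r := 1)).subset ?_
    intro p hp
    rw [mem_closedBall_zero_iff, Prod.norm_def]
    exact max_le hp.1.1.le hp.1.2.le
  have hcont : ContinuousOn (fun p : (Fin n → K) × (Fin m → K) => g p.1 p.2) Z := by
    refine hg.continuous.mono fun p hp => ⟨?_, ?_, hp.2⟩
    · intro h0
      have := hp.1.1
      rw [h0, norm_zero] at this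
      exact zero_ne_one this
    · intro h0
      have := hp.1.2
      rw [h0, norm_zero] at this
      exact zero_ne_one this
  obtain ⟨C, hC⟩ := hco.bddAbove_image hcont
  refine ⟨C, fun x y hx hy h => ?_⟩
  obtain ⟨s, hs, hs1⟩ := exists_scale hx
  obtain ⟨t, ht, ht1⟩ := exists_scale hy
  have h1 : OnX M (s • x) (t • y) := by
    intro i
    rw [mulVec_smul, dotProduct_smul, smul_dotProduct, h i]
    simp
  rw [← hg.invariant x y hx hy h s t hs ht]
  exact hC ⟨(s • x, t • y), ⟨⟨hs1, ht1⟩, h1⟩, rfl⟩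

/-- the twist of a local factor -/
theorem twist {K : Type*} [NormedField K] {M : Fin k → Matrix (Fin n) (Fin m) ℤ}
    {φ g : (Fin n → K) → (Fin m → K) → ℝ} (hφ : LocalFactor M φ) (hg : TestFunction M g) (s : ℝ) :
    LocalFactor M (fun x y => φ x y * Real.exp (-(s * g x y))) where
  continuous := hφ.continuous.mul
    (Real.continuous_exp.comp_continuousOn (hg.continuous.const_smul s).neg)
  positive x y hx hy h := mul_pos (hφ.positive x y hx hy h) (Real.exp_pos _)
  invariant x y hx hy h a b ha hb := by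
    rw [hφ.invariant x y hx hy h a b ha hb, hg.invariant x y hx hy h a b ha hb]

/-- the value of the test functions at the places -/
noncomputable def gv (g₀ : (Fin n → ℝ) → (Fin m → ℝ) → ℝ)
    (g : ∀ p : Nat.Primes, (Fin n → ℚ_[p]) → (Fin m → ℚ_[p]) → ℝ) (o : Option Nat.Primes)
    (P : Projectivization ℚ (Fin n → ℚ) × Projectivization ℚ (Fin m → ℚ)) : ℝ :=
  match o with
  | none => g₀ (ext ℝ P.1.rep) (ext ℝ P.2.rep)
  | some p => g p (ext ℚ_[p] P.1.rep) (ext ℚ_[p] P.2.rep)

/-- **Equidistribution of the rational points.** -/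
theorem result (hk : 1 ≤ k) (hn : 2 * k + 1 ≤ n) (hm : 2 * k + 1 ≤ m)
    (M : Fin k → Matrix (Fin n) (Fin m) ℤ) (hM : Jacobian M)
    (S : Finset Nat.Primes) (φ₀ : (Fin n → ℝ) → (Fin m → ℝ) → ℝ) (h₀ : LocalFactor M φ₀)
    (φ : ∀ p : Nat.Primes, (Fin n → ℚ_[p]) → (Fin m → ℚ_[p]) → ℝ)
    (h : ∀ p ∈ S, LocalFactor M (φ p))
    (g₀ : (Fin n → ℝ) → (Fin m → ℝ) → ℝ) (hg₀ : TestFunction M g₀)
    (g : ∀ p : Nat.Primes, (Fin n → ℚ_[p]) → (Fin m → ℚ_[p]) → ℝ)
    (hg : ∀ p ∈ S, TestFunction M (g p)) :
    ∃ μ : ℝ, Tendsto (fun B : ℝ =>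
      (∑ᶠ P ∈ {P | P ∈ points M ∧ height k S φ₀ φ P ≤ B}, value S g₀ g P) / (B * Real.log B))
      atTop (𝓝 μ) := by
  classical
  have hpt : ∀ P ∈ points M, ∀ (K : Type) [NormedField K] [CharZero K],
      ext K P.1.rep ≠ 0 ∧ ext K P.2.rep ≠ 0 ∧ OnX M (ext K P.1.rep) (ext K P.2.rep) :=
    fun P hP K _ _ => ⟨ext_ne P.1.rep_nonzero, ext_ne P.2.rep_nonzero, onX_ext hP.1⟩
  have hval : ∀ P, value S g₀ g P = ∏ i ∈ Finset.insertNone S, gv g₀ g i P := by
    intro P
    rw [Finset.prod_insertNone]
    rfl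
  simp only [hval]
  have key := Pool.Agent.T63.EQ.equi (points M) 1 (Finset.insertNone S) (height k S φ₀ φ) (fun P hP => ?_)
    (gv g₀ g) (fun i hi P hP => ?_) (fun i hi => ?_) (fun s => ?_)
  · obtain ⟨μ, hμ⟩ := key
    refine ⟨μ, hμ.congr fun B => ?_⟩
    rw [pow_one]
  · unfold height
    have h1 := hpt P hP ℝ
    refine mul_pos (mul_pos (pow_pos (Projectivization.mulHeight_pos _) _)
      (pow_pos (Projectivization.mulHeight_pos _) _)) (mul_pos (h₀.positive _ _ h1.1 h1.2.1 h1.2.2)
        (Finset.prod_pos fun p hp => ?_))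
    have h2 := hpt P hP ℚ_[p]
    exact (h p hp).positive _ _ h2.1 h2.2.1 h2.2.2
  · rcases i with _ | p
    · have h1 := hpt P hP ℝ
      exact hg₀.nonneg _ _ h1.1 h1.2.1 h1.2.2
    · have hp : p ∈ S := by simpa using hi
      have h2 := hpt P hP ℚ_[p]
      exact (hg p hp).nonneg _ _ h2.1 h2.2.1 h2.2.2
  · rcases i with _ | p
    · obtain ⟨C, hC⟩ := hg₀.bounded
      refine ⟨C, fun P hP => ?_⟩
      have h1 := hpt P hP ℝ
      exact hC _ _ h1.1 h1.2.1 h1.2.2
    · have hp : p ∈ S := by simpa using hi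
      obtain ⟨C, hC⟩ := (hg p hp).bounded
      refine ⟨C, fun P hP => ?_⟩
      have h2 := hpt P hP ℚ_[p]
      exact hC _ _ h2.1 h2.2.1 h2.2.2
  · obtain ⟨c, hc, hlim⟩ := Pool.Agent.Results.MP_1acd66_nt.CompleteIntersectionsAllHeights.result hk hn hm M hM S
      (fun x y => φ₀ x y * Real.exp (-(s none * g₀ x y))) (twist h₀ hg₀ _)
      (fun p x y => φ p x y * Real.exp (-(s (some p) * g p x y)))
      (fun p hp => twist (h p hp) (hg p hp) _)
    refine ⟨c, hc, hlim.congr fun B => ?_⟩
    rw [pow_one]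
    congr 3
    ext P
    simp only [points, Set.mem_ofPred_eq, and_assoc]
    refine and_congr_right fun _ => and_congr_right fun _ => ?_
    have e1 : height k S (fun x y => φ₀ x y * Real.exp (-(s none * g₀ x y)))
        (fun p x y => φ p x y * Real.exp (-(s (some p) * g p x y))) P =
        height k S φ₀ φ P * Real.exp (-∑ i ∈ Finset.insertNone S, s i * gv g₀ g i P) := by
      unfold height
      rw [Finset.prod_mul_distrib, ← Real.exp_sum, Finset.sum_insertNone, neg_add, Real.exp_add,
        ← Finset.sum_neg_distrib]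
      simp only [gv]
      ring
    rw [e1]

end Pool.Agent.Results.MP_1acd66_nt.EquidistributionBilinear
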