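import Pool.Agent.T63.EQ.Sub
import Pool.Agent.Results.MP_1acd66_nt.SmoothMultilinearAllHeights

/-!
# Equidistribution of the rational points of smooth complete intersections of multilinear hypersurfaces

The setting is that of the starting result `SmoothMultilinearAllHeights`: `X` is any smooth complete intersection of
`k` multilinear hypersurfaces in a product of `m` projective spaces of large dimensions over `ℚ`, and for every adelic
anticanonical height `H` the number of the rational points with `H(P) ≤ B` of a Zariski open subset `U`, which does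
not depend on `H`, is asymptotic to `c B (log B) ^ (m - 1)`, `c > 0`.

**Theorem.** For every adelic anticanonical height `H`, every finite set `S` of primes and all continuous functions
`g₀ ≥ 0` on `X(ℝ)` and `g_p ≥ 0` on `X(ℚ_p)`, `p ∈ S`, the means

  `1 / (B (log B) ^ (m - 1)) ∑ g₀(P) ∏_{p ∈ S} g_p(P)`, over the `P ∈ U(ℚ)` with `H(P) ≤ B`,

converge as `B → ∞`: the rational points of bounded height are equidistributed in `X(ℝ) × ∏_{p ∈ S} X(ℚ_p)` with
respect to some finite measure, of positive total mass `c`; in particular (characteristic functions of open and closed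
sets) the number of the points with given residues modulo a fixed integer divided by `B (log B) ^ (m - 1)` converges.

That the asymptotic formula for all adelic heights implies the equidistribution is a principle of Peyre (for the
constants which he predicts). Here the constants are not known; the proof (`Agent/T63/EQ`) averages the number of the
points with `B < H(P) ≤ B exp (s g(P))` over `B`, and treats the places one after the other.
-/

set_option autoImplicit false

namespace Pool.Agent.Results.MP_1acd66_nt.EquidistributionMultilinear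

open Filter Topology Function
open Pool.Agent.Results.MP_1acd66_nt.SmoothMultilinearAllHeights

variable {m k : ℕ} {n : Fin m → ℕ}

/-- Nonnegative continuous functions on `X(K)`, written as functions of the coordinate vectors: they do not change if
the vectors are multiplied by nonzero scalars. -/
structure TestFunction {K : Type*} [NormedField K] (F : System n k) (g : Tuple n K → ℝ) : Prop where
  continuous : ContinuousOn g {x | (∀ v, x v ≠ 0) ∧ OnX F x}
  nonneg : ∀ x, (∀ v, x v ≠ 0) → OnX F x → 0 ≤ g x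
  invariant : ∀ x, (∀ v, x v ≠ 0) → OnX F x → ∀ c : Fin m → K, (∀ v, c v ≠ 0) →
    g (fun v => c v • x v) = g x

/-- The rational points of the open subset of `X` where not all polynomials in `Ω` vanish. -/
def points (F : System n k) (Ω : Set (MvPolynomial (Σ v, Fin (n v)) ℤ)) :
    Set (∀ v, Projectivization ℚ (Fin (n v) → ℚ)) :=
  {P | OnX F (fun v => (P v).rep) ∧
    ∃ w ∈ Ω, MvPolynomial.aeval (fun q : (Σ v, Fin (n v)) => (P q.1).rep q.2) w ≠ 0}

/-- The value of the product of the test functions at a rational point. -/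
noncomputable def value (S : Finset Nat.Primes) (g₀ : Tuple n ℝ → ℝ)
    (g : ∀ p : Nat.Primes, Tuple n ℚ_[p] → ℝ) (P : ∀ v, Projectivization ℚ (Fin (n v) → ℚ)) : ℝ :=
  g₀ (ext ℝ fun v => (P v).rep) * ∏ p ∈ S, g p (ext ℚ_[p] fun v => (P v).rep)

theorem ext_ne {K : Type*} [Field K] [CharZero K] {x : Tuple n ℚ} {v : Fin m} (hv : x v ≠ 0) :
    ext K x v ≠ 0 := by
  intro h
  apply hv
  funext i
  have := congrFun h i
  simpa [ext] using this

theorem onX_ext {K : Type*} [Field K] [CharZero K] {F : System n k} {x : Tuple n ℚ} (h : OnX F x) :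
    OnX F (ext K x) := by
  intro i
  have h1 := congrArg (fun q : ℚ => (q : K)) (h i)
  simp only [form] at h1 ⊢
  push_cast at h1
  simpa [ext] using h1

theorem exists_scale {K : Type*} [NormedField K] {N : ℕ} {x : Fin N → K} (hx : x ≠ 0) :
    ∃ s : K, s ≠ 0 ∧ ‖s • x‖ = 1 := by
  obtain ⟨i₀, hi₀⟩ : ∃ i, x i ≠ 0 := by
    by_contra h
    push Not at h
    exact hx (funext h)
  obtain ⟨i, -, hi⟩ := Finset.exists_max_image Finset.univ (fun i => ‖x i‖) ⟨i₀, Finset.mem_univ _⟩
  have hxi : x i ≠ 0 := by
    intro h0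
    have h1 := hi i₀ (Finset.mem_univ _)
    rw [h0, norm_zero] at h1
    exact hi₀ (norm_le_zero_iff.1 h1)
  have hn : ‖x‖ = ‖x i‖ := by
    refine le_antisymm ?_ (norm_le_pi_norm x i)
    exact (pi_norm_le_iff_of_nonneg (norm_nonneg _)).2 fun j => hi j (Finset.mem_univ _)
  refine ⟨(x i)⁻¹, inv_ne_zero hxi, ?_⟩
  rw [norm_smul, norm_inv, hn, inv_mul_cancel₀ (norm_ne_zero_iff.2 hxi)]

theorem form_smul {K : Type*} [CommRing K] (F : System n k) (i : Fin k) (x : Tuple n K) (c : Fin m → K) :
    form F i (fun v => c v • x v) = (∏ v : F.e i, c v) * form F i x := by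
  unfold form
  rw [Finset.mul_sum]
  refine Finset.sum_congr rfl fun j _ => ?_
  simp only [Pi.smul_apply, smul_eq_mul, Finset.prod_mul_distrib]
  ring

/-- test functions are bounded, as `X(K)` is compact -/
theorem TestFunction.bounded {K : Type*} [NormedField K] [ProperSpace K] {F : System n k}
    {g : Tuple n K → ℝ} (hg : TestFunction F g) :
    ∃ C : ℝ, ∀ x, (∀ v, x v ≠ 0) → OnX F x → g x ≤ C := by
  set Z : Set (Tuple n K) := {x | (∀ v, ‖x v‖ = 1) ∧ OnX F x} with hZ
  have hcl : IsClosed Z := by
    have hZ' : Z = (⋂ v, {x : Tuple n K | ‖x v‖ = 1}) ∩ ⋂ i, {x : Tuple n K | form F i x = 0} := by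
      ext x
      simp [hZ, OnX]
    rw [hZ']
    refine IsClosed.inter (isClosed_iInter fun v => ?_) (isClosed_iInter fun i => ?_)
    · exact isClosed_eq (continuous_norm.comp (continuous_apply v)) continuous_const
    · refine isClosed_eq ?_ continuous_const
      unfold form
      refine continuous_finsetSum _ fun j _ => ?_
      refine continuous_const.mul (continuous_finsetProd _ fun v _ => ?_)
      exact (continuous_apply _).comp (continuous_apply _)
  have hco : IsCompact Z := by
    refine Metric.isCompact_of_isClosed_isBounded hcl ?_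
    refine (Metric.isBounded_closedBall (x := (0 : Tuple n K)) (r := 1)).subset ?_
    intro x hx
    rw [mem_closedBall_zero_iff]
    exact (pi_norm_le_iff_of_nonneg zero_le_one).2 fun v => (hx.1 v).le
  have hcont : ContinuousOn g Z := by
    refine hg.continuous.mono fun x hx => ⟨fun v => ?_, hx.2⟩
    intro h0
    have := hx.1 v
    rw [h0, norm_zero] at this
    exact zero_ne_one this
  obtain ⟨C, hC⟩ := hco.bddAbove_image hcont
  refine ⟨C, fun x hx h => ?_⟩
  choose s hs hs1 using fun v => exists_scale (hx v)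
  have h1 : OnX F (fun v => s v • x v) := by
    intro i
    rw [form_smul, h i, mul_zero]
  rw [← hg.invariant x hx h s hs]
  exact hC ⟨_, ⟨hs1, h1⟩, rfl⟩

/-- the twist of a local factor -/
theorem twist {K : Type*} [NormedField K] {F : System n k} {φ g : Tuple n K → ℝ}
    (hφ : LocalFactor F φ) (hg : TestFunction F g) (s : ℝ) :
    LocalFactor F (fun x => φ x * Real.exp (-(s * g x))) where
  continuous := hφ.continuous.mul
    (Real.continuous_exp.comp_continuousOn (hg.continuous.const_smul s).neg)
  positive x hx h := mul_pos (hφ.positive x hx h) (Real.exp_pos _)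
  invariant x hx h c hc := by
    rw [hφ.invariant x hx h c hc, hg.invariant x hx h c hc]

/-- the value of the test functions at the places -/
noncomputable def gv (g₀ : Tuple n ℝ → ℝ) (g : ∀ p : Nat.Primes, Tuple n ℚ_[p] → ℝ)
    (o : Option Nat.Primes) (P : ∀ v, Projectivization ℚ (Fin (n v) → ℚ)) : ℝ :=
  match o with
  | none => g₀ (ext ℝ fun v => (P v).rep)
  | some p => g p (ext ℚ_[p] fun v => (P v).rep)

/-- **Equidistribution of the rational points.** -/
theorem result (hk : 1 ≤ k) (F : System n k) (h2 : ∀ i, 2 ≤ (F.e i).card)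
    (hc : ∀ v, ∃ i, v ∈ F.e i) (hF : Smooth F)
    (hn : ∀ v, (m - 1) * ∑ i, (F.e i).card + 2 * deg F v ≤ n v + k) :
    ∃ Ω : Set (MvPolynomial (Σ v, Fin (n v)) ℤ), (∀ w ∈ Ω, Multihomogeneous w) ∧
      ∀ (S : Finset Nat.Primes) (φ₀ : Tuple n ℝ → ℝ) (φ : ∀ p : Nat.Primes, Tuple n ℚ_[p] → ℝ),
        LocalFactor F φ₀ → (∀ p ∈ S, LocalFactor F (φ p)) →
        (∃ c : ℝ, 0 < c ∧ Tendsto (fun B : ℝ =>
          (({P | P ∈ points F Ω ∧ height F S φ₀ φ P ≤ B} : Set _).ncard : ℝ) /
            (B * Real.log B ^ (m - 1))) atTop (𝓝 c)) ∧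
        ∀ (g₀ : Tuple n ℝ → ℝ) (g : ∀ p : Nat.Primes, Tuple n ℚ_[p] → ℝ),
          TestFunction F g₀ → (∀ p ∈ S, TestFunction F (g p)) →
          ∃ μ : ℝ, Tendsto (fun B : ℝ =>
            (∑ᶠ P ∈ {P | P ∈ points F Ω ∧ height F S φ₀ φ P ≤ B}, value S g₀ g P) /
              (B * Real.log B ^ (m - 1))) atTop (𝓝 μ) := by
  classical
  obtain ⟨Ω, hΩ, hmain⟩ :=
    Pool.Agent.Results.MP_1acd66_nt.SmoothMultilinearAllHeights.result hk F h2 hc hF hn
  have hset : ∀ (S : Finset Nat.Primes) (φ₀ : Tuple n ℝ → ℝ) (φ : ∀ p : Nat.Primes, Tuple n ℚ_[p] → ℝ)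
      (B : ℝ), {P : ∀ v, Projectivization ℚ (Fin (n v) → ℚ) | OnX F (fun v => (P v).rep) ∧
        (∃ w ∈ Ω, MvPolynomial.aeval (fun q : (Σ v, Fin (n v)) => (P q.1).rep q.2) w ≠ 0) ∧
          height F S φ₀ φ P ≤ B} = {P | P ∈ points F Ω ∧ height F S φ₀ φ P ≤ B} := by
    intro S φ₀ φ B
    ext P
    simp only [points, Set.mem_ofPred_eq, and_assoc]
  refine ⟨Ω, hΩ, fun S φ₀ φ h₀ h => ⟨?_, fun g₀ g hg₀ hg => ?_⟩⟩
  · obtain ⟨c, hc, hlim⟩ := hmain S φ₀ φ h₀ h
    simp only [hset] at hlim
    exact ⟨c, hc, hlim⟩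
  have hpt : ∀ P ∈ points F Ω, ∀ (K : Type) [NormedField K] [CharZero K],
      (∀ v, ext K (fun v => (P v).rep) v ≠ 0) ∧ OnX F (ext K (fun v => (P v).rep)) :=
    fun P hP K _ _ => ⟨fun v => ext_ne (P v).rep_nonzero, onX_ext hP.1⟩
  have hval : ∀ P, value S g₀ g P = ∏ i ∈ Finset.insertNone S, gv g₀ g i P := by
    intro P
    rw [Finset.prod_insertNone]
    rfl
  simp only [hval]
  refine Pool.Agent.T63.EQ.equi (points F Ω) (m - 1) (Finset.insertNone S) (height F S φ₀ φ)
    (fun P hP => ?_) (gv g₀ g) (fun i hi P hP => ?_) (fun i hi => ?_) (fun s => ?_)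
  · unfold height
    have h1 := hpt P hP ℝ
    refine mul_pos (Finset.prod_pos fun v _ => pow_pos (Projectivization.mulHeight_pos _) _)
      (mul_pos (h₀.positive _ h1.1 h1.2) (Finset.prod_pos fun p hp => ?_))
    have h2 := hpt P hP ℚ_[p]
    exact (h p hp).positive _ h2.1 h2.2
  · rcases i with _ | p
    · have h1 := hpt P hP ℝ
      exact hg₀.nonneg _ h1.1 h1.2
    · have hp : p ∈ S := by simpa using hi
      have h2 := hpt P hP ℚ_[p]
      exact (hg p hp).nonneg _ h2.1 h2.2
  · rcases i with _ | p
    · obtain ⟨C, hC⟩ := hg₀.bounded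
      refine ⟨C, fun P hP => ?_⟩
      have h1 := hpt P hP ℝ
      exact hC _ h1.1 h1.2
    · have hp : p ∈ S := by simpa using hi
      obtain ⟨C, hC⟩ := (hg p hp).bounded
      refine ⟨C, fun P hP => ?_⟩
      have h2 := hpt P hP ℚ_[p]
      exact hC _ h2.1 h2.2
  · obtain ⟨c, hc, hlim⟩ := hmain S (fun x => φ₀ x * Real.exp (-(s none * g₀ x)))
      (fun p x => φ p x * Real.exp (-(s (some p) * g p x))) (twist h₀ hg₀ _)
      (fun p hp => twist (h p hp) (hg p hp) _)
    refine ⟨c, hc, hlim.congr fun B => ?_⟩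
    rw [hset]
    congr 3
    ext P
    simp only [Set.mem_ofPred_eq]
    refine and_congr_right fun _ => ?_
    have e1 : height F S (fun x => φ₀ x * Real.exp (-(s none * g₀ x)))
        (fun p x => φ p x * Real.exp (-(s (some p) * g p x))) P =
        height F S φ₀ φ P * Real.exp (-∑ i ∈ Finset.insertNone S, s i * gv g₀ g i P) := by
      unfold height
      rw [Finset.prod_mul_distrib, ← Real.exp_sum, Finset.sum_insertNone, neg_add, Real.exp_add,
        ← Finset.sum_neg_distrib]
      simp only [gv]
      ring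
    rw [e1]

end Pool.Agent.Results.MP_1acd66_nt.EquidistributionMultilinear
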