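import Pool.Agent.T63.EQ.Sub
import Pool.Agent.Results.MP_1acd66_nt.PointsOnTheLineAllHeights

/-!
# Equidistribution of the rational points of `(P^1)^n // SL_2`

The setting is that of the starting result `PointsOnTheLineAllHeights`: `V` is the quotient `(P^1)^n // SL_2`,
`n = N + 3 ≥ 5` (for even `n` a small resolution given by the weights), `U` the open subset of distinct points, and
for every adelic anticanonical height `H` the number of the points of `U(ℚ)` with `H(t) ≤ B` is asymptotic to
`c B (log B) ^ (N + 2)`, `c > 0`.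

**Theorem.** For every adelic anticanonical height `H`, every finite set `S` of primes and all continuous functions
`g₀ ≥ 0` on `V(ℝ)` and `g_p ≥ 0` on `V(ℚ_p)`, `p ∈ S`, the means

  `1 / (B (log B) ^ (N + 2)) ∑ g₀(t) ∏_{p ∈ S} g_p(t)`, over the `t ∈ U(ℚ)` with `H(t) ≤ B`,

converge as `B → ∞`: the rational points of bounded height are equidistributed in `V(ℝ) × ∏_{p ∈ S} V(ℚ_p)` with
respect to some finite measure, of positive total mass `c`.

That the asymptotic formula for all adelic heights implies the equidistribution is a principle of Peyre (for the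
constants which he predicts). Here the constants are not known; the proof (`Agent/T63/EQ`) averages the number of the
points with `B < H(t) ≤ B exp (s g(t))` over `B`, and treats the places one after the other.
-/

set_option autoImplicit false

namespace Pool.Agent.Results.MP_1acd66_nt.EquidistributionPointsOnTheLine

open Filter Topology
open Pool.Agent.Results.MP_1acd66_nt.PointsOnTheLineAllHeights

/-- Nonnegative bounded continuous functions on `V(K)`, written as functions of the stable configurations of vectors: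
they do not change if a matrix is applied to all vectors or if the vectors are multiplied by nonzero scalars.
(`V(K)` is compact, so that continuous functions are bounded.) -/
structure TestFunction {N : ℕ} {K : Type} [NormedField K] (o : Ix N)
    (g : (Ix N → K × K) → ℝ) : Prop where
  continuous : ContinuousOn g {x | Stable o x}
  invariant : ∀ x, Stable o x → ∀ a b c d : K, a * d - b * c ≠ 0 → ∀ s : Ix N → K, (∀ l, s l ≠ 0) →
    g (fun l => (s l * (a * (x l).1 + b * (x l).2), s l * (c * (x l).1 + d * (x l).2))) = g x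
  bounded : ∃ M : ℝ, ∀ x, Stable o x → 0 ≤ g x ∧ g x ≤ M

/-- The adelic anticanonical height of a configuration. -/
noncomputable def height {N : ℕ} (S : Finset Nat.Primes) (φ₀ : (Ix N → ℝ × ℝ) → ℝ)
    (φ : ∀ p : Nat.Primes, (Ix N → ℚ_[p] × ℚ_[p]) → ℝ) (t : Fin N → ℚ) : ℝ :=
  ht t * (φ₀ (ext (pt t)) * ∏ p ∈ S, φ p (ext (pt t)))

/-- The value of the product of the test functions at a rational point. -/
noncomputable def value {N : ℕ} (S : Finset Nat.Primes) (g₀ : (Ix N → ℝ × ℝ) → ℝ)
    (g : ∀ p : Nat.Primes, (Ix N → ℚ_[p] × ℚ_[p]) → ℝ) (t : Fin N → ℚ) : ℝ :=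
  g₀ (ext (pt t)) * ∏ p ∈ S, g p (ext (pt t))

theorem finite_mon (N : ℕ) : Finite (Mon N) := by
  have hle : ∀ (m : Mon N) (q : Ix N × Ix N), m.1 q < 3 := by
    intro m q
    have h1 := m.2 q.1
    have h2 : m.1 (q.1, q.2) + m.1 (q.2, q.1) ≤ ∑ j, (m.1 (q.1, j) + m.1 (j, q.1)) :=
      Finset.single_le_sum (f := fun j => m.1 (q.1, j) + m.1 (j, q.1)) (fun _ _ => Nat.zero_le _)
        (Finset.mem_univ q.2)
    rw [h1] at h2
    have h3 : m.1 (q.1, q.2) = m.1 q := rfl
    omega
  refine Finite.of_injective (fun (m : Mon N) (q : Ix N × Ix N) => (⟨m.1 q, hle m q⟩ : Fin 3))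
    fun m m' h => Subtype.ext (funext fun q => ?_)
  have := congrFun h q
  simpa using this

theorem br_ext {N : ℕ} {K : Type} [Field K] [CharZero K] (x : Ix N → ℚ × ℚ) (i j : Ix N) :
    br (ext (K := K) x i) (ext x j) = ((br (x i) (x j) : ℚ) : K) := by
  unfold br ext
  push_cast
  rfl

theorem br_ne {N : ℕ} {t : Fin N → ℚ} (ht : t ∈ U N) {i j : Ix N} (hij : i ≠ j) :
    br (pt t i) (pt t j) ≠ 0 := by
  obtain ⟨hinj, h01⟩ := ht
  rcases i with i | i <;> rcases j with j | j
  · fin_cases i <;> fin_cases j <;> simp_all [br, pt]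
  · have h1 := h01 j
    fin_cases i
    · simp [br, pt]
    · simp [br, pt, h1.1]
    · simp only [br, pt, Fin.reduceFinMk, Matrix.cons_val]
      intro h2
      apply h1.2
      linarith
  · have h1 := h01 i
    fin_cases j
    · simp [br, pt]
    · simp [br, pt, h1.1]
    · simp only [br, pt, Fin.reduceFinMk, Matrix.cons_val]
      intro h2
      apply h1.2
      linarith
  · have hne : i ≠ j := fun h => hij (by rw [h])
    simp only [br, pt]
    intro h2
    exact hne (hinj (by linarith))

theorem stable_of {N : ℕ} (hN : 2 ≤ N) {K : Type} [Field K] [CharZero K] (o : Ix N) {t : Fin N → ℚ}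
    (ht : t ∈ U N) : Stable o (ext (K := K) (pt t)) := by
  intro j
  have hbr : ∀ l, l ≠ j → br (ext (K := K) (pt t) j) (ext (pt t) l) ≠ 0 := by
    intro l hl
    rw [br_ext]
    exact_mod_cast br_ne ht (Ne.symm hl)
  have hwt : ∀ i, wt o i ≤ 3 := fun i => by unfold wt; split_ifs <;> norm_num
  have hwt2 : ∀ i, 2 ≤ wt o i := fun i => by unfold wt; split_ifs <;> norm_num
  have htot : 2 * (N + 3) ≤ ∑ l, wt o l := by
    have h1 : ∑ _l : Ix N, 2 ≤ ∑ l, wt o l := Finset.sum_le_sum fun i _ => hwt2 i
    simp only [Finset.sum_const, Finset.card_univ, Fintype.card_sum, Fintype.card_fin, smul_eq_mul] at h1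
    omega
  refine ⟨?_, fun M hM => ?_⟩
  · intro h0
    obtain ⟨l, hl⟩ : ∃ l : Ix N, l ≠ j := by
      by_contra hcon
      push Not at hcon
      have h1 := hcon (Sum.inl 0)
      have h2 := hcon (Sum.inl 1)
      rw [← h2] at h1
      simp at h1
    apply hbr l hl
    rw [h0]
    simp [br]
  · have hsub : M ⊆ {j} := by
      intro l hl
      rw [Finset.mem_singleton]
      by_contra hne
      exact hbr l hne (hM l hl)
    have h1 : ∑ l ∈ M, wt o l ≤ ∑ l ∈ ({j} : Finset (Ix N)), wt o l := Finset.sum_le_sum_of_subset hsub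
    rw [Finset.sum_singleton] at h1
    have h2 := hwt j
    omega

/-- the twist of a local factor -/
theorem twist {N : ℕ} {K : Type} [NormedField K] {o : Ix N} {φ g : (Ix N → K × K) → ℝ}
    (hφ : LocalFactor o φ) (hg : TestFunction o g) (s : ℝ) :
    LocalFactor o (fun x => φ x * Real.exp (-(s * g x))) where
  continuous := hφ.continuous.mul
    (Real.continuous_exp.comp_continuousOn (hg.continuous.const_smul s).neg)
  invariant x hx a b c d h r hr := by
    rw [hφ.invariant x hx a b c d h r hr, hg.invariant x hx a b c d h r hr]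
  bounded := by
    obtain ⟨m, M, hm, hφb⟩ := hφ.bounded
    obtain ⟨C, hC⟩ := hg.bounded
    have hsb : ∀ x, Stable o x → |s * g x| ≤ |s| * C := by
      intro x hx
      rw [abs_mul, abs_of_nonneg (hC x hx).1]
      exact mul_le_mul_of_nonneg_left (hC x hx).2 (abs_nonneg _)
    refine ⟨m * Real.exp (-(|s| * C)), M * Real.exp (|s| * C), by positivity, fun x hx => ⟨?_, ?_⟩⟩
    · have h1 := abs_le.1 (hsb x hx)
      have h2 := hφb x hx
      refine mul_le_mul h2.1 (Real.exp_le_exp.2 ?_) (Real.exp_pos _).le (hm.le.trans h2.1)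
      linarith [h1.2]
    · have h1 := abs_le.1 (hsb x hx)
      have h2 := hφb x hx
      refine mul_le_mul h2.2 (Real.exp_le_exp.2 ?_) (Real.exp_pos _).le
        ((hm.le.trans h2.1).trans h2.2)
      linarith [h1.1]

/-- the value of the test functions at the places -/
noncomputable def gv {N : ℕ} (g₀ : (Ix N → ℝ × ℝ) → ℝ)
    (g : ∀ p : Nat.Primes, (Ix N → ℚ_[p] × ℚ_[p]) → ℝ) (i : Option Nat.Primes) (t : Fin N → ℚ) : ℝ :=
  match i with
  | none => g₀ (ext (pt t))
  | some p => g p (ext (pt t))

/-- **Equidistribution of the rational points.** -/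
theorem result (N : ℕ) (hN : 2 ≤ N) (o : Ix N) (S : Finset Nat.Primes)
    (φ₀ : (Ix N → ℝ × ℝ) → ℝ) (h₀ : LocalFactor o φ₀)
    (φ : ∀ p : Nat.Primes, (Ix N → ℚ_[p] × ℚ_[p]) → ℝ) (h : ∀ p ∈ S, LocalFactor o (φ p))
    (g₀ : (Ix N → ℝ × ℝ) → ℝ) (hg₀ : TestFunction o g₀)
    (g : ∀ p : Nat.Primes, (Ix N → ℚ_[p] × ℚ_[p]) → ℝ) (hg : ∀ p ∈ S, TestFunction o (g p)) :
    ∃ μ : ℝ, Tendsto (fun B : ℝ => (∑ᶠ t ∈ {t | t ∈ U N ∧ height S φ₀ φ t ≤ B}, value S g₀ g t) /
      (B * Real.log B ^ (N + 2))) atTop (𝓝 μ) := by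
  classical
  have hval : ∀ P, value S g₀ g P = ∏ i ∈ Finset.insertNone S, gv g₀ g i P := by
    intro P
    rw [Finset.prod_insertNone]
    rfl
  have hpos : ∀ {K : Type} [NormedField K] {φ : (Ix N → K × K) → ℝ}, LocalFactor o φ → ∀ x,
      Stable o x → 0 < φ x := by
    intro K _ φ hφ x hx
    obtain ⟨m, M, hm, hb⟩ := hφ.bounded
    exact lt_of_lt_of_le hm (hb x hx).1
  simp only [hval]
  refine Pool.Agent.T63.EQ.equi (U N) (N + 2) (Finset.insertNone S) (height S φ₀ φ) (fun t ht' => ?_)
    (gv g₀ g) (fun i hi t ht' => ?_) (fun i hi => ?_) (fun s => ?_)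
  · unfold height
    haveI := finite_mon N
    refine mul_pos ?_ (mul_pos (hpos h₀ _ (stable_of hN o ht')) (Finset.prod_pos fun p hp =>
      hpos (h p hp) _ (stable_of hN o ht')))
    exact lt_of_lt_of_le one_pos (Height.one_le_mulHeight _)
  · rcases i with _ | p
    · obtain ⟨M, hM⟩ := hg₀.bounded
      exact (hM _ (stable_of hN o ht')).1
    · have hp : p ∈ S := by simpa using hi
      obtain ⟨M, hM⟩ := (hg p hp).bounded
      exact (hM _ (stable_of hN o ht')).1
  · rcases i with _ | p
    · obtain ⟨M, hM⟩ := hg₀.bounded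
      exact ⟨M, fun t ht' => (hM _ (stable_of hN o ht')).2⟩
    · have hp : p ∈ S := by simpa using hi
      obtain ⟨M, hM⟩ := (hg p hp).bounded
      exact ⟨M, fun t ht' => (hM _ (stable_of hN o ht')).2⟩
  · obtain ⟨c, hc, hlim⟩ := Pool.Agent.Results.MP_1acd66_nt.PointsOnTheLineAllHeights.result N hN o S
      (fun x => φ₀ x * Real.exp (-(s none * g₀ x))) (twist h₀ hg₀ _)
      (fun p x => φ p x * Real.exp (-(s (some p) * g p x)))
      (fun p hp => twist (h p hp) (hg p hp) _)
    refine ⟨c, hc, hlim.congr fun B => ?_⟩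
    congr 3
    ext t
    simp only [Set.mem_setOf_eq]
    refine and_congr_right fun _ => ?_
    have e1 : ht t * (φ₀ (ext (pt t)) * Real.exp (-(s none * g₀ (ext (pt t)))) *
        ∏ p ∈ S, φ p (ext (pt t)) * Real.exp (-(s (some p) * g p (ext (pt t))))) =
        height S φ₀ φ t * Real.exp (-∑ i ∈ Finset.insertNone S, s i * gv g₀ g i t) := by
      unfold height
      rw [Finset.prod_mul_distrib, ← Real.exp_sum, Finset.sum_insertNone, neg_add, Real.exp_add,
        ← Finset.sum_neg_distrib]
      simp only [gv]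
      ring
    rw [e1]

end Pool.Agent.Results.MP_1acd66_nt.EquidistributionPointsOnTheLine
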